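import Pool.Agent.Q126.NV.Two
import Pool.Agent.Y160.T5.Fin

/-!
Nonvanishing at the central point for a positive proportion of the elliptic curves with a point of
order two over `F(t)`.
-/

set_option autoImplicit false
set_option linter.all false
set_option maxHeartbeats 1000000

open FF Module Polynomial

namespace Pool.Agent.Q126.NV

open Pool.Agent.W343.BSD Pool.Agent.W313.Gr
open Pool.Agent.H525R3.FFp Pool.Agent.W309.RF
open Pool.Agent.TH180.R2 Pool.Agent.TH180.R4
open Pool.Agent.Y160.SL (coefG coefB coefC)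
open Pool.Agent.Y160.T3 (GoodP coefG_map coefB_map coefG_monic coefG_natDegree coefB_natDegree
  sum_monic irr_expand vec_count)

section curve

variable {k : Type} [Field k] {m r : ℕ}

/-- `a = c B` -/
noncomputable def aPoly (m r : ℕ) (v : Fin (m + (r + 2)) → k) : k[X] :=
  C (coefC m r v) * coefB m r v

/-- `b = - c ^ 2 G / 4` -/
noncomputable def bPoly (m r : ℕ) (v : Fin (m + (r + 2)) → k) : k[X] :=
  C (-(coefC m r v ^ 2 / 4)) * coefG m r v

theorem disc_poly (h4 : (4 : k) ≠ 0) (v : Fin (m + (r + 2)) → k) :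
    aPoly m r v ^ 2 - 4 * bPoly m r v =
      C (coefC m r v ^ 2) * (coefG m r v + coefB m r v ^ 2) := by
  unfold aPoly bPoly
  have e4 : (4 : k[X]) = C 4 := by rw [map_ofNat]
  have e : (4 : k[X]) * (C (-(coefC m r v ^ 2 / 4)) * coefG m r v) =
      -(C (coefC m r v ^ 2) * coefG m r v) := by
    rw [e4, ← mul_assoc, ← C_mul, mul_neg, mul_div_cancel₀ _ h4, C_neg, neg_mul]
  rw [e, mul_pow, C_pow]
  ring

/-- the irreducibility of the two polynomials in the tower, and coprimality -/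
theorem irr_tower (h2 : (2 : k) ≠ 0) {v : Fin (m + (r + 2)) → k} (hqr : 2 * r < m) {R : ℕ}
    (hR : Odd R) (hc : coefC m r v ≠ 0) (hb : coefB m r v ≠ 0) (hg : GoodP R (coefG m r v))
    (hg2 : GoodP R (coefG m r v + coefB m r v ^ 2)) {M e : ℕ} (hM : M ∣ R ^ e) :
    Irreducible ((bPoly m r v).comp (X ^ M)) ∧
      Irreducible ((aPoly m r v ^ 2 - 4 * bPoly m r v).comp (X ^ M)) ∧
        IsCoprime (aPoly m r v) (bPoly m r v) := by
  have h4 : (4 : k) ≠ 0 := by
    have : (4 : k) = 2 * 2 := by norm_num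
    rw [this]; exact mul_ne_zero h2 h2
  have hMo : Odd M := hR.pow.of_dvd_nat hM
  have hMR : ∀ N : ℕ, N.Prime → N ∣ M → N ∣ R := fun N hN hNM => hN.dvd_of_dvd_pow (hNM.trans hM)
  have i1 : Irreducible ((coefG m r v).comp (X ^ M)) := by
    rw [← expand_eq_comp_X_pow]
    exact irr_expand (coefG_monic _) hg.1 hMo fun N hN hNM => hg.2 N hN (hMR N hN hNM)
  have i2 : Irreducible ((coefG m r v + coefB m r v ^ 2).comp (X ^ M)) := by
    rw [← expand_eq_comp_X_pow]
    exact irr_expand (sum_monic _ hqr) hg2.1 hMo fun N hN hNM => hg2.2 N hN (hMR N hN hNM)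
  have hc2 : -(coefC m r v ^ 2 / 4) ≠ 0 := neg_ne_zero.2 (div_ne_zero (pow_ne_zero 2 hc) h4)
  refine ⟨?_, ?_, ?_⟩
  · unfold bPoly
    rw [mul_comp, C_comp]
    exact (irreducible_isUnit_mul (isUnit_C.2 (isUnit_iff_ne_zero.2 hc2))).2 i1
  · rw [disc_poly h4, mul_comp, C_comp]
    exact (irreducible_isUnit_mul (isUnit_C.2 (isUnit_iff_ne_zero.2 (pow_ne_zero 2 hc)))).2 i2
  · unfold aPoly bPoly
    have h1 : IsCoprime (coefB m r v) (coefG m r v) := by
      rw [isCoprime_comm, hg.1.coprime_iff_not_dvd]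
      intro hdv
      have h3 := natDegree_le_of_dvd hdv hb
      rw [coefG_natDegree] at h3
      have h5 := coefB_natDegree (m := m) (r := r) v
      omega
    have u1 : IsUnit (C (coefC m r v)) := isUnit_C.2 (isUnit_iff_ne_zero.2 hc)
    have u2 : IsUnit (C (-(coefC m r v ^ 2 / 4))) := isUnit_C.2 (isUnit_iff_ne_zero.2 hc2)
    exact (isCoprime_mul_unit_left_right u2 _ _).2 ((isCoprime_mul_unit_left_left u1 _ _).2 h1)

end curve


section concl

/-- The conclusions for the elliptic curve `E : y ^ 2 = x (x ^ 2 + a x + b)` over `k(t)`, with the short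
form `y ^ 2 = x ^ 3 + tA x + tB`: `E` is an elliptic curve with a nonconstant `j`-invariant, its
`L`-function does not vanish at the central point, and the rank is zero if it is at most the order
of vanishing. -/
structure Central (k : Type) [Field k] (a b : k[X]) : Prop where
  disc : 4 * tA 1 (A a) (A b) ^ 3 + 27 * tB 1 (A a) (A b) ^ 2 ≠ 0
  jinv : ∀ c : k, 6912 * tA 1 (A a) (A b) ^ 3 / (4 * tA 1 (A a) (A b) ^ 3 +
    27 * tB 1 (A a) (A b) ^ 2) ≠ algebraMap k (RatFunc k) c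
  order : ∀ m : ℕ, S.VanishesTo k (tA 1 (A a) (A b)) (tB 1 (A a) (A b)) m → m = 0
  rank : ∀ r : ℕ, HasOrder k (tA 1 (A a) (A b)) (tB 1 (A a) (A b)) r → r = 0 ∧
    (Pool.Agent.W313.Gr.rank (tA 1 (A a) (A b)) (tB 1 (A a) (A b)) ≤ r →
      Pool.Agent.W313.Gr.rank (tA 1 (A a) (A b)) (tB 1 (A a) (A b)) = 0)

variable {k : Type} [Field k] [Finite k]

theorem noniso_poly (h6 : (6 : k) ≠ 0) {a b : k[X]} (hb : Irreducible b) (cop : IsCoprime a b)
    (hd : a ^ 2 - 4 * b ≠ 0) :
    4 * tA 1 (A a) (A b) ^ 3 + 27 * tB 1 (A a) (A b) ^ 2 ≠ 0 ∧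
    ∀ c : k, 6912 * tA 1 (A a) (A b) ^ 3 / (4 * tA 1 (A a) (A b) ^ 3 +
      27 * tB 1 (A a) (A b) ^ 2) ≠ algebraMap k (RatFunc k) c := by
  obtain ⟨k2, k3⟩ := k23 h6
  have F3 : (3 : RatFunc k) ≠ 0 := nz k3
  have hb' : A b ≠ 0 := A_ne hb.ne_zero
  have ed : A (a ^ 2 - 4 * b) = A a ^ 2 - 4 * A b := by
    change algebraMap k[X] (RatFunc k) _ = _
    rw [map_sub, map_pow, map_mul, map_ofNat]
  have hd' : A a ^ 2 - 4 * A b ≠ 0 := by rw [← ed]; exact A_ne hd
  have h1 := disc_ne F3 hb' hd'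
  refine ⟨h1, fun c hc => ?_⟩
  have h2 := (div_eq_iff h1).1 hc
  rw [disc_t F3] at h2
  have h3 : 256 * (3 * A b - A a ^ 2) ^ 3 = -(algebraMap k (RatFunc k) c) * (A b ^ 2 *
      (A a ^ 2 - 4 * A b)) := by
    have h4 : 6912 * tA 1 (A a) (A b) ^ 3 = 256 * (3 * A b - A a ^ 2) ^ 3 := by
      unfold tA
      field_simp
      ring
    rw [← h4, h2]
    ring
  have h4 : 256 * (3 * b - a ^ 2) ^ 3 = -(C c) * (b ^ 2 * (a ^ 2 - 4 * b)) := by
    apply IsFractionRing.injective k[X] (RatFunc k)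
    have e1 : algebraMap k[X] (RatFunc k) (C c) = algebraMap k (RatFunc k) c := A_C c
    rw [map_mul, map_mul, map_neg, e1, map_mul, map_pow, map_pow, map_sub, map_sub, map_pow,
      map_mul, map_mul, map_ofNat, map_ofNat, map_ofNat]
    exact h3
  have hdv : b ∣ 256 * (3 * b - a ^ 2) ^ 3 := by
    rw [h4]
    exact Dvd.intro_left _ (by ring : -(C c) * (b * (a ^ 2 - 4 * b)) * b = _)
  have hu : IsUnit (256 : k[X]) := by
    have e : (256 : k[X]) = C ((2 : k) ^ 8) := by
      rw [C_pow]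
      have : (C (2 : k) : k[X]) = 2 := by rw [map_ofNat]
      rw [this]
      norm_num
    rw [e]
    exact isUnit_C.2 (isUnit_iff_ne_zero.2 (pow_ne_zero 8 k2))
  have h5 : b ∣ 3 * b - a ^ 2 := hb.prime.dvd_of_dvd_pow ((hu.dvd_mul_left).1 hdv)
  have h6' : b ∣ a ^ 2 := by
    have h7 := (dvd_sub_right (Dvd.intro_left (3 : k[X]) rfl)).1 h5
    exact h7
  have h7 : b ∣ a := hb.prime.dvd_of_dvd_pow h6'
  exact hb.not_isUnit (cop.isUnit_of_dvd' h7 dvd_rfl)

theorem central_of (h6 : (6 : k) ≠ 0) {a b : k[X]} {M : ℕ} (hM : M ≠ 0)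
    (hb : Irreducible (b.comp (X ^ M))) (hd : Irreducible ((a ^ 2 - 4 * b).comp (X ^ M)))
    (ob : Odd (b.comp (X ^ M)).natDegree) (od : Odd ((a ^ 2 - 4 * b).comp (X ^ M)).natDegree)
    (cop : IsCoprime a b) : Central k (a.comp (X ^ M)) (b.comp (X ^ M)) := by
  have ed : (a ^ 2 - 4 * b).comp (X ^ M) = a.comp (X ^ M) ^ 2 - 4 * b.comp (X ^ M) := by
    rw [sub_comp, pow_comp, mul_comp, ofNat_comp]
    rfl
  have cop' : IsCoprime (a.comp (X ^ M)) (b.comp (X ^ M)) := by
    obtain ⟨u, w, huw⟩ := cop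
    refine ⟨u.comp (X ^ M), w.comp (X ^ M), ?_⟩
    rw [← mul_comp, ← mul_comp, ← add_comp, huw, one_comp]
  have hd0 : a.comp (X ^ M) ^ 2 - 4 * b.comp (X ^ M) ≠ 0 := by
    rw [← ed]
    exact hd.ne_zero
  obtain ⟨h1, h2⟩ := noniso_poly h6 hb cop' hd0
  have h3 : ∀ m : ℕ, S.VanishesTo k (tA 1 (A (a.comp (X ^ M))) (A (b.comp (X ^ M))))
      (tB 1 (A (a.comp (X ^ M))) (A (b.comp (X ^ M)))) m → m = 0 :=
    fun m hm => nonvanishing h6 hb hd ob od cop hm
  refine ⟨h1, h2, h3, fun r hr => ?_⟩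
  have h4 := h3 r (vanishes_of hr)
  refine ⟨h4, fun hle => ?_⟩
  rw [h4] at hle
  exact le_antisymm (by exact_mod_cast hle) zero_le

/-- **The proportion.** -/
theorem proportion {m r R : ℕ} (hm : Odd m) (hr : 2 * r < m) (hR : Odd R) (F : Type) [Field F]
    [Finite F] (h6 : (6 : F) ≠ 0) (hRF : R ∣ Nat.card F - 1) (hn : 4 * (R * m) + 2 ≤ Nat.card F) :
    Nat.card F ^ (m + (r + 2)) ≤ 16 * (R * m) ^ 2 *
      {v : Fin (m + (r + 2)) → F | ∀ (F' : Type) [Field F'] [Algebra F F'] [FiniteDimensional F F'],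
        (R * m).Coprime (Module.finrank F F') → ∀ M e : ℕ, M ∣ R ^ e →
          Central F' ((aPoly m r (fun i => algebraMap F F' (v i))).comp (X ^ M))
            ((bPoly m r (fun i => algebraMap F F' (v i))).comp (X ^ M))}.ncard := by
  classical
  haveI : Fintype F := Fintype.ofFinite F
  rw [Nat.card_eq_fintype_card] at hRF hn ⊢
  set S0 : Set (Fin (m + (r + 2)) → F) := {v : Fin (m + (r + 2)) → F | ∀ (F' : Type) [Field F']
    [Algebra F F'] [FiniteDimensional F F'],
        (R * m).Coprime (Module.finrank F F') → ∀ M e : ℕ, M ∣ R ^ e →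
          Central F' ((aPoly m r (fun i => algebraMap F F' (v i))).comp (X ^ M))
            ((bPoly m r (fun i => algebraMap F F' (v i))).comp (X ^ M))} with hS0
  have hfin : S0.Finite := Set.toFinite _
  rw [Set.ncard_eq_toFinset_card S0 hfin]
  have hcop' : (2 : ℕ).Coprime (R * m) :=
    (Nat.coprime_two_left).2 (hR.mul hm)
  refine vec_count hR hr (by norm_num) hcop' F hRF hn _ fun v hc hb hg hg2 => ?_
  rw [Set.Finite.mem_toFinset, hS0]
  intro F' _ _ _ hrk M e hM
  haveI : Finite F' := Module.finite_of_finite F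
  have hinj : Function.Injective (algebraMap F F') := (algebraMap F F').injective
  have h6' : (6 : F') ≠ 0 := by
    have h := (_root_.map_ne_zero (algebraMap F F')).2 h6
    rwa [map_ofNat] at h
  obtain ⟨k2, k3⟩ := k23 h6'
  have hc' : coefC m r (fun i => algebraMap F F' (v i)) ≠ 0 := (_root_.map_ne_zero _).2 hc
  have hb' : coefB m r (fun i => algebraMap F F' (v i)) ≠ 0 := by
    rw [← coefB_map]
    exact (Polynomial.map_ne_zero_iff hinj).2 hb
  have hg' : GoodP R (coefG m r (fun i => algebraMap F F' (v i))) := by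
    rw [← coefG_map]
    exact Pool.Agent.Y160.T5.good_ext (coefG_monic v) hg (by rwa [coefG_natDegree])
  have hg2' : GoodP R (coefG m r (fun i => algebraMap F F' (v i)) +
      coefB m r (fun i => algebraMap F F' (v i)) ^ 2) := by
    rw [← coefG_map, ← coefB_map, ← Polynomial.map_pow, ← Polynomial.map_add]
    refine Pool.Agent.Y160.T5.good_ext (sum_monic v hr) hg2 ?_
    have h1 : (coefG m r v + coefB m r v ^ 2).natDegree = m := by
      rw [natDegree_add_eq_left_of_natDegree_lt, coefG_natDegree]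
      rw [coefG_natDegree]
      exact (natDegree_pow_le.trans (Nat.mul_le_mul le_rfl (coefB_natDegree v))).trans_lt hr
    rwa [h1]
  obtain ⟨i1, i2, i3⟩ := irr_tower k2 hr hR hc' hb' hg' hg2' hM
  have hMo : Odd M := hR.pow.of_dvd_nat hM
  have h4 : (4 : F') ≠ 0 := by
    have : (4 : F') = 2 * 2 := by norm_num
    rw [this]; exact mul_ne_zero k2 k2
  refine central_of h6' hMo.pos.ne' i1 i2 ?_ ?_ i3
  · have e1 : (bPoly m r (fun i => algebraMap F F' (v i))).natDegree = m := by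
      unfold bPoly
      rw [natDegree_C_mul (neg_ne_zero.2 (div_ne_zero (pow_ne_zero 2 hc') h4)), coefG_natDegree]
    rw [natDegree_comp, natDegree_X_pow, e1]
    exact hm.mul hMo
  · have e1 : (aPoly m r (fun i => algebraMap F F' (v i)) ^ 2 -
        4 * bPoly m r (fun i => algebraMap F F' (v i))).natDegree = m := by
      rw [disc_poly h4, natDegree_C_mul (pow_ne_zero 2 hc'), natDegree_add_eq_left_of_natDegree_lt,
        coefG_natDegree]
      rw [coefG_natDegree]
      exact (natDegree_pow_le.trans (Nat.mul_le_mul le_rfl (coefB_natDegree _))).trans_lt hr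
    rw [natDegree_comp, natDegree_X_pow, e1]
    exact hm.mul hMo

end concl

end Pool.Agent.Q126.NV
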