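import Pool.Agent.TH639.B3.Fam
import Pool.Agent.Q126.NV.Prop

/-!
Nonvanishing at the central point for a positive proportion of the elliptic curves with a point of
order three over `F(t)`.
-/

set_option autoImplicit false
set_option linter.all false
set_option maxHeartbeats 1000000

open FF Module Polynomial

namespace Pool.Agent.Q126.NV.Three

open Pool.Agent.W343.BSD Pool.Agent.W313.Gr
open Pool.Agent.H525R3.FFp Pool.Agent.W309.RF
open Pool.Agent.TH639.B3
open Pool.Agent.TH943.LG (primes mem_primes)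
open Pool.Agent.TH943.TT (primes_irr)
open Pool.Agent.TH180.R2 (vanishes_of)
open Pool.Agent.TH180.R4 (k23)
open Pool.Agent.Y160.SL (coefG coefB coefC)
open Pool.Agent.Y160.T3 (GoodP coefG_map coefB_map coefG_monic coefG_natDegree coefB_natDegree
  sum_monic irr_expand vec_count)

section nonv

variable {k : Type} [Field k] [Finite k]

open Classical in
theorem deg_norm (p : k[X]) : (normalize p).natDegree = p.natDegree :=
  natDegree_eq_of_degree_eq (degree_eq_degree_of_associated (normalize_associated p))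

theorem pow_three {n : ℕ} (h : ¬ 3 ∣ n) : 3 ^ padicValNat 3 n = 1 := by
  rw [padicValNat.eq_zero_of_not_dvd h, pow_zero]

/-- **Nonvanishing.** -/
theorem nonvanishing (h6 : (6 : k) ≠ 0) {α β : k[X]} (hβ : Irreducible β)
    (hγ : Irreducible (4 * α ^ 3 - 27 * β)) (cop : IsCoprime α β) (dβ : ¬ 3 ∣ β.natDegree)
    (dγ : ¬ 3 ∣ (4 * α ^ 3 - 27 * β).natDegree) (dα : 3 * α.natDegree ≤ β.natDegree)
    (hq : 3 ∣ Nat.card k - 1 ∨ Odd (4 * α ^ 3 - 27 * β).natDegree) {m : ℕ}
    (hm : S.VanishesTo k (cA α β) (cB α β) m) : m = 0 := by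
  classical
  have h1 := bound_fam h6 hβ.ne_zero hγ.ne_zero hm
  have h3k : ¬ 3 ∣ Nat.card k := by
    intro h
    obtain ⟨k2, k3⟩ := k23 h6
    haveI : Fintype k := Fintype.ofFinite k
    obtain ⟨j, hj⟩ := h
    -- the cardinality is a power of the characteristic
    obtain ⟨p, hp⟩ := CharP.exists k
    haveI := hp
    have hpp : p.Prime := (CharP.char_is_prime_or_zero k p).resolve_right (by
      rintro rfl
      exact CharP.char_ne_zero_of_finite k 0 rfl)
    obtain ⟨n, -, hn⟩ := FiniteField.card k p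
    rw [Nat.card_eq_fintype_card, hn] at hj
    have h4 : 3 ∣ p ^ (n : ℕ) := ⟨j, hj⟩
    have h5 := (Nat.prime_dvd_prime_iff_eq Nat.prime_three hpp).1
      (Nat.prime_three.dvd_of_dvd_pow h4)
    apply k3
    subst h5
    exact_mod_cast CharP.cast_eq_zero k 3
  have e1 : ∑ P ∈ primes β, (if P ∣ α ∧ 3 ∣ Nat.card k ^ P.natDegree - 1 then 2 else 1) *
      3 ^ padicValNat 3 P.natDegree = 1 := by
    rw [primes_irr hβ, Finset.sum_singleton, deg_norm, pow_three dβ, mul_one, if_neg]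
    rintro ⟨h2, -⟩
    have h4 : β ∣ α := (normalize_associated β).symm.dvd.trans h2
    exact hβ.not_isUnit (cop.isUnit_of_dvd' h4 dvd_rfl)
  have e2 : ∑ P ∈ (primes (4 * α ^ 3 - 27 * β)).filter
      (fun P => ¬ P ∣ β ∧ 3 ∣ Nat.card k ^ P.natDegree - 1), 3 ^ padicValNat 3 P.natDegree ≤
        if 3 ∣ Nat.card k - 1 then 1 else 0 := by
    rw [primes_irr hγ, Finset.filter_singleton]
    split_ifs with h2 h4 h4
    · rw [Finset.sum_singleton, deg_norm, pow_three dγ]
    · exfalso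
      rw [deg_norm] at h2
      obtain ⟨-, h5⟩ := h2
      have ho := hq.resolve_left h4
      have h7 : Nat.card k % 3 = 2 := by
        have : 1 ≤ Nat.card k := Nat.card_pos
        omega
      have h8 : Nat.card k ^ (4 * α ^ 3 - 27 * β).natDegree % 3 = 2 := by
        obtain ⟨j, hj⟩ := ho
        rw [hj, pow_succ, pow_mul, Nat.mul_mod, Nat.pow_mod, Nat.pow_mod (Nat.card k) 2, h7]
        norm_num
      omega
    · rw [Finset.sum_empty]
      exact Nat.zero_le _
    · rw [Finset.sum_empty]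
  have e3 : infB α β = if 3 ∣ Nat.card k - 1 then 2 else 1 := by
    unfold infB
    rw [if_neg (by omega), if_neg dβ]
  have e4 : finB α β ≤ 1 + if 3 ∣ Nat.card k - 1 then 1 else 0 := by
    unfold finB
    rw [e1]
    exact Nat.add_le_add_left e2 1
  rw [e3] at h1
  split_ifs at h1 e4 <;> omega

end nonv

section concl

/-- The conclusions for the elliptic curve `E : y ^ 2 = x ^ 3 + (α x + β) ^ 2` over `k(t)`, with the short
form `y ^ 2 = x ^ 3 + cA x + cB`: `E` is an elliptic curve with a nonconstant `j`-invariant, its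
`L`-function does not vanish at the central point, and the rank is zero if it is at most the order
of vanishing. -/
structure Central (k : Type) [Field k] (α β : k[X]) : Prop where
  disc : 4 * cA α β ^ 3 + 27 * cB α β ^ 2 ≠ 0
  jinv : ∀ c : k, 6912 * cA α β ^ 3 / (4 * cA α β ^ 3 + 27 * cB α β ^ 2) ≠
    algebraMap k (RatFunc k) c
  order : ∀ m : ℕ, S.VanishesTo k (cA α β) (cB α β) m → m = 0
  rank : ∀ r : ℕ, HasOrder k (cA α β) (cB α β) r → r = 0 ∧
    (Pool.Agent.W313.Gr.rank (cA α β) (cB α β) ≤ r →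
      Pool.Agent.W313.Gr.rank (cA α β) (cB α β) = 0)

variable {k : Type} [Field k] [Finite k]

theorem noniso_poly (h6 : (6 : k) ≠ 0) {α β : k[X]} (hβ : Irreducible β) (cop : IsCoprime α β)
    (hγ : 4 * α ^ 3 - 27 * β ≠ 0) :
    4 * cA α β ^ 3 + 27 * cB α β ^ 2 ≠ 0 ∧
    ∀ c : k, 6912 * cA α β ^ 3 / (4 * cA α β ^ 3 + 27 * cB α β ^ 2) ≠
      algebraMap k (RatFunc k) c := by
  obtain ⟨k2, k3⟩ := k23 h6
  have F3 : (3 : RatFunc k) ≠ 0 := W309.RK.three_K (k := k) h6
  have h1 := disc_ne F3 hβ.ne_zero hγ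
  refine ⟨h1, fun c hc => ?_⟩
  have h2 := (div_eq_iff h1).1 hc
  rw [isT3_disc F3 (isT3_fam F3 α β)] at h2
  have h3 : 256 * (A α * (6 * A β - A α ^ 3)) ^ 3 = -(algebraMap k (RatFunc k) c) * (A β ^ 3 *
      (4 * A α ^ 3 - 27 * A β)) := by
    have h4 : 6912 * cA α β ^ 3 = 256 * (A α * (6 * A β - A α ^ 3)) ^ 3 := by
      unfold cA
      field_simp
      ring
    rw [← h4, h2]
    ring
  have h4 : 256 * (α * (6 * β - α ^ 3)) ^ 3 = -(C c) * (β ^ 3 * (4 * α ^ 3 - 27 * β)) := by
    apply IsFractionRing.injective k[X] (RatFunc k)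
    have e1 : algebraMap k[X] (RatFunc k) (C c) = algebraMap k (RatFunc k) c := A_C c
    simp only [map_mul, map_neg, map_pow, map_sub, map_ofNat, e1]
    exact h3
  have hdv : β ∣ 256 * (α * (6 * β - α ^ 3)) ^ 3 := by
    rw [h4]
    exact Dvd.intro_left _ (by ring : -(C c) * (β ^ 2 * (4 * α ^ 3 - 27 * β)) * β = _)
  have hu : IsUnit (256 : k[X]) := by
    have e : (256 : k[X]) = C ((2 : k) ^ 8) := by
      rw [C_pow]
      have : (C (2 : k) : k[X]) = 2 := by rw [map_ofNat]
      rw [this]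
      norm_num
    rw [e]
    exact isUnit_C.2 (isUnit_iff_ne_zero.2 (pow_ne_zero 8 k2))
  have hna : ¬ β ∣ α := fun h => hβ.not_isUnit (cop.isUnit_of_dvd' h dvd_rfl)
  have h5 : β ∣ α * (6 * β - α ^ 3) := hβ.prime.dvd_of_dvd_pow ((hu.dvd_mul_left).1 hdv)
  have h6' : β ∣ 6 * β - α ^ 3 := (hβ.prime.dvd_or_dvd h5).resolve_left hna
  have h7 := (dvd_sub_right (Dvd.intro_left (6 : k[X]) rfl)).1 h6'
  exact hna (hβ.prime.dvd_of_dvd_pow h7)

theorem central_of (h6 : (6 : k) ≠ 0) {α β : k[X]} (hβ : Irreducible β)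
    (hγ : Irreducible (4 * α ^ 3 - 27 * β)) (cop : IsCoprime α β) (dβ : ¬ 3 ∣ β.natDegree)
    (dγ : ¬ 3 ∣ (4 * α ^ 3 - 27 * β).natDegree) (dα : 3 * α.natDegree ≤ β.natDegree)
    (hq : 3 ∣ Nat.card k - 1 ∨ Odd (4 * α ^ 3 - 27 * β).natDegree) : Central k α β := by
  obtain ⟨h1, h2⟩ := noniso_poly h6 hβ cop hγ.ne_zero
  have h3 : ∀ m : ℕ, S.VanishesTo k (cA α β) (cB α β) m → m = 0 :=
    fun m hm => nonvanishing h6 hβ hγ cop dβ dγ dα hq hm
  refine ⟨h1, h2, h3, fun r hr => ?_⟩
  have h4 := h3 r (vanishes_of hr)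
  refine ⟨h4, fun hle => ?_⟩
  rw [h4] at hle
  exact le_antisymm (by exact_mod_cast hle) zero_le

end concl

section prop

variable {k : Type} [Field k] {m r : ℕ}

/-- `α = c B` -/
noncomputable def aPoly (m r : ℕ) (v : Fin (m + (r + 2)) → k) : k[X] :=
  C (coefC m r v) * coefB m r v

/-- `β = - (4 / 27) c ^ 3 G` -/
noncomputable def bPoly (m r : ℕ) (v : Fin (m + (r + 2)) → k) : k[X] :=
  C (-(4 * coefC m r v ^ 3 / 27)) * coefG m r v

theorem gam_poly (h27 : (27 : k) ≠ 0) (v : Fin (m + (r + 2)) → k) :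
    4 * aPoly m r v ^ 3 - 27 * bPoly m r v =
      C (4 * coefC m r v ^ 3) * (coefG m r v + coefB m r v ^ 3) := by
  unfold aPoly bPoly
  have e4 : (4 : k[X]) = C 4 := by rw [map_ofNat]
  have e27 : (27 : k[X]) = C 27 := by rw [map_ofNat]
  have e : (27 : k[X]) * (C (-(4 * coefC m r v ^ 3 / 27)) * coefG m r v) =
      -(C (4 * coefC m r v ^ 3) * coefG m r v) := by
    rw [e27, ← mul_assoc, ← C_mul, mul_neg, mul_div_cancel₀ _ h27, C_neg, neg_mul]
  rw [e, mul_pow, C_mul, C_pow, ← e4]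
  ring

/-- **The proportion.** -/
theorem proportion {m r R : ℕ} (hm : ¬ 3 ∣ m) (hr : 3 * r < m) (hR : Odd R) (hR3 : ¬ 3 ∣ R)
    (F : Type) [Field F] [Finite F] (h6 : (6 : F) ≠ 0) (hq : 3 ∣ Nat.card F - 1 ∨ Odd m)
    (hRF : R ∣ Nat.card F - 1) (hn : 4 * (R * m) + 2 ≤ Nat.card F) :
    Nat.card F ^ (m + (r + 2)) ≤ 16 * (R * m) ^ 2 *
      {v : Fin (m + (r + 2)) → F | ∀ (F' : Type) [Field F'] [Algebra F F'] [FiniteDimensional F F'],
        (R * m).Coprime (Module.finrank F F') → ∀ M e : ℕ, M ∣ R ^ e →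
          Central F' ((aPoly m r (fun i => algebraMap F F' (v i))).comp (X ^ M))
            ((bPoly m r (fun i => algebraMap F F' (v i))).comp (X ^ M))}.ncard := by
  classical
  haveI : Fintype F := Fintype.ofFinite F
  rw [Nat.card_eq_fintype_card] at hRF hn ⊢
  set S0 : Set (Fin (m + (r + 2)) → F) := {v : Fin (m + (r + 2)) → F | ∀ (F' : Type) [Field F']
    [Algebra F F'] [FiniteDimensional F F'],
        (R * m).Coprime (Module.finrank F F') → ∀ M e : ℕ, M ∣ R ^ e →
          Central F' ((aPoly m r (fun i => algebraMap F F' (v i))).comp (X ^ M))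
            ((bPoly m r (fun i => algebraMap F F' (v i))).comp (X ^ M))} with hS0
  have hfin : S0.Finite := Set.toFinite _
  rw [Set.ncard_eq_toFinset_card S0 hfin]
  have hcop' : (3 : ℕ).Coprime (R * m) := by
    rw [Nat.Prime.coprime_iff_not_dvd Nat.prime_three, Nat.prime_three.dvd_mul]
    tauto
  refine vec_count hR hr (by norm_num) hcop' F hRF hn _ fun v hc hb hg hg2 => ?_
  rw [Set.Finite.mem_toFinset, hS0]
  intro F' _ _ _ hrk M e hM
  haveI : Finite F' := Module.finite_of_finite F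
  have hinj : Function.Injective (algebraMap F F') := (algebraMap F F').injective
  have h6' : (6 : F') ≠ 0 := by
    have h := (_root_.map_ne_zero (algebraMap F F')).2 h6
    rwa [map_ofNat] at h
  obtain ⟨k2, k3⟩ := k23 h6'
  have k4 : (4 : F') ≠ 0 := by
    have : (4 : F') = 2 * 2 := by norm_num
    rw [this]; exact mul_ne_zero k2 k2
  have k27 : (27 : F') ≠ 0 := by
    have : (27 : F') = 3 ^ 3 := by norm_num
    rw [this]; exact pow_ne_zero 3 k3
  have hc' : coefC m r (fun i => algebraMap F F' (v i)) ≠ 0 := (_root_.map_ne_zero _).2 hc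
  have hb' : coefB m r (fun i => algebraMap F F' (v i)) ≠ 0 := by
    rw [← coefB_map]
    exact (Polynomial.map_ne_zero_iff hinj).2 hb
  have hg' : GoodP R (coefG m r (fun i => algebraMap F F' (v i))) := by
    rw [← coefG_map]
    exact Pool.Agent.Y160.T5.good_ext (coefG_monic v) hg (by rwa [coefG_natDegree])
  have hsum : ∀ (F'' : Type) [Field F''] (w : Fin (m + (r + 2)) → F''),
      (coefG m r w + coefB m r w ^ 3).natDegree = m := by
    intro F'' _ w
    rw [natDegree_add_eq_left_of_natDegree_lt, coefG_natDegree]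
    rw [coefG_natDegree]
    exact (natDegree_pow_le.trans (Nat.mul_le_mul le_rfl (coefB_natDegree w))).trans_lt hr
  have hg2' : GoodP R (coefG m r (fun i => algebraMap F F' (v i)) +
      coefB m r (fun i => algebraMap F F' (v i)) ^ 3) := by
    rw [← coefG_map, ← coefB_map, ← Polynomial.map_pow, ← Polynomial.map_add]
    refine Pool.Agent.Y160.T5.good_ext (sum_monic v hr) hg2 ?_
    rwa [hsum]
  generalize hw : (fun i => algebraMap F F' (v i)) = w at hc' hb' hg' hg2' ⊢
  have hMo : Odd M := hR.pow.of_dvd_nat hM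
  have hM0 : M ≠ 0 := hMo.pos.ne'
  have hM3 : ¬ 3 ∣ M := fun h => hR3 (Nat.prime_three.dvd_of_dvd_pow (h.trans hM))
  have hMR : ∀ N : ℕ, N.Prime → N ∣ M → N ∣ R := fun N hN hNM => hN.dvd_of_dvd_pow (hNM.trans hM)
  have i1 : Irreducible ((coefG m r w).comp (X ^ M)) := by
    rw [← expand_eq_comp_X_pow]
    exact irr_expand (coefG_monic _) hg'.1 hMo fun N hN hNM => hg'.2 N hN (hMR N hN hNM)
  have i2 : Irreducible ((coefG m r w + coefB m r w ^ 3).comp (X ^ M)) := by
    rw [← expand_eq_comp_X_pow]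
    exact irr_expand (sum_monic _ hr) hg2'.1 hMo fun N hN hNM => hg2'.2 N hN (hMR N hN hNM)
  have hc2 : -(4 * coefC m r w ^ 3 / 27) ≠ 0 :=
    neg_ne_zero.2 (div_ne_zero (mul_ne_zero k4 (pow_ne_zero 3 hc')) k27)
  have hc3 : 4 * coefC m r w ^ 3 ≠ 0 := mul_ne_zero k4 (pow_ne_zero 3 hc')
  have eg : 4 * (aPoly m r w).comp (X ^ M) ^ 3 - 27 * (bPoly m r w).comp (X ^ M) =
      C (4 * coefC m r w ^ 3) * (coefG m r w + coefB m r w ^ 3).comp (X ^ M) := by
    have h1 : (4 * aPoly m r w ^ 3 - 27 * bPoly m r w).comp (X ^ M) =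
        (C (4 * coefC m r w ^ 3) * (coefG m r w + coefB m r w ^ 3)).comp (X ^ M) := by
      rw [gam_poly k27 w]
    rw [mul_comp, C_comp, sub_comp, mul_comp, mul_comp, pow_comp, ofNat_comp, ofNat_comp] at h1
    exact h1
  have dG : ((coefG m r w).comp (X ^ M)).natDegree = m * M := by
    rw [natDegree_comp, natDegree_X_pow, coefG_natDegree]
  have dS : ((coefG m r w + coefB m r w ^ 3).comp (X ^ M)).natDegree = m * M := by
    rw [natDegree_comp, natDegree_X_pow, hsum]
  have hmM : ¬ 3 ∣ m * M := by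
    rw [Nat.prime_three.dvd_mul]
    tauto
  have dB : ((bPoly m r w).comp (X ^ M)).natDegree = m * M := by
    unfold bPoly
    rw [mul_comp, C_comp, natDegree_C_mul hc2, dG]
  refine central_of h6' ?_ ?_ ?_ ?_ ?_ ?_ ?_
  · unfold bPoly
    rw [mul_comp, C_comp]
    exact (irreducible_isUnit_mul (isUnit_C.2 (isUnit_iff_ne_zero.2 hc2))).2 i1
  · rw [eg]
    exact (irreducible_isUnit_mul (isUnit_C.2 (isUnit_iff_ne_zero.2 hc3))).2 i2
  · have h1 : IsCoprime (coefB m r w) (coefG m r w) := by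
      rw [isCoprime_comm, hg'.1.coprime_iff_not_dvd]
      intro hdv
      have h3 := natDegree_le_of_dvd hdv hb'
      rw [coefG_natDegree] at h3
      have h5 := coefB_natDegree (m := m) (r := r) w
      omega
    have u1 : IsUnit (C (coefC m r w)) := isUnit_C.2 (isUnit_iff_ne_zero.2 hc')
    have u2 : IsUnit (C (-(4 * coefC m r w ^ 3 / 27))) := isUnit_C.2 (isUnit_iff_ne_zero.2 hc2)
    have h2 : IsCoprime (aPoly m r w) (bPoly m r w) :=
      (isCoprime_mul_unit_left_right u2 _ _).2 ((isCoprime_mul_unit_left_left u1 _ _).2 h1)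
    obtain ⟨x, y, hxy⟩ := h2
    refine ⟨x.comp (X ^ M), y.comp (X ^ M), ?_⟩
    rw [← mul_comp, ← mul_comp, ← add_comp, hxy, one_comp]
  · rwa [dB]
  · rwa [eg, natDegree_C_mul hc3, dS]
  · rw [dB]
    have h5 : (aPoly m r w).natDegree ≤ r :=
      (natDegree_C_mul_le _ _).trans (coefB_natDegree w)
    rw [natDegree_comp, natDegree_X_pow, ← mul_assoc]
    exact Nat.mul_le_mul ((Nat.mul_le_mul le_rfl h5).trans hr.le) le_rfl
  · rw [eg, natDegree_C_mul hc3, dS]
    rcases hq with h | h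
    · left
      have h1 : Nat.card F' = Nat.card F ^ Module.finrank F F' := Module.natCard_eq_pow_finrank
      rw [h1]
      refine h.trans ?_
      have h2 := Nat.sub_dvd_pow_sub_pow (Nat.card F) 1 (Module.finrank F F')
      rwa [one_pow] at h2
    · right
      exact h.mul hMo

end prop

end Pool.Agent.Q126.NV.Three
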