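import Pool.Agent.TH180.R4.Poly
import Pool.Agent.W309.RF.ZetaR

/-!
The order of vanishing of the `L`-function of `y ^ 2 = x (x ^ 2 + a(f) x + b(f))` at the central point,
without conditions at the poles of `f`.
-/

set_option autoImplicit false
set_option linter.all false
set_option maxHeartbeats 1000000

open FF Module Polynomial

namespace Pool.Agent.Q126.NV

open Pool.Agent.W343.BSD Pool.Agent.H123R3.ZT Pool.Agent.W313.Gr Pool.Agent.W313.Hyp
open Pool.Agent.H525R3.FFp Pool.Agent.W309.RF
open Pool.Agent.TH180.R2 Pool.Agent.TH180.R4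

section glob

variable {k K : Type} [Field k] [Finite k] [Field K] [Algebra k K] [FF.IsFF k K]

/-- the exponents of the conductor -/
theorem exp_le_cop (h6 : (6 : k) ≠ 0) {a b : k[X]} (cop : IsCoprime a b) (hb0 : b ≠ 0)
    (hd0 : a ^ 2 - 4 * b ≠ 0) {f : K} (hf : Transcendental k f) (v : Place k K) :
    condExp v (tA 1 (aeval f a) (aeval f b)) (tB 1 (aeval f a) (aeval f b)) ≤
      (if 0 < v.ord (aeval f b) then 1 else 0) +
        (if 0 < v.ord (aeval f (a ^ 2 - 4 * b)) then 1 else 0) +
          2 * (if 0 < v.ord f⁻¹ then 1 else 0) := by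
  obtain ⟨k2, k3⟩ := k23 h6
  have F3 : (3 : K) ≠ 0 := nz k3
  have R2 : (2 : v.RF) ≠ 0 := nz k2
  have R3 : (3 : v.RF) ≠ 0 := nz k3
  have R4 : (4 : v.RF) ≠ 0 := by
    have : (4 : v.RF) = 2 * 2 := by norm_num
    rw [this]; exact mul_ne_zero R2 R2
  have r3 : v.Reg (3 : K)⁻¹ := const_reg v (c := 3⁻¹) (by rw [map_inv₀, map_ofNat])
  have hb := aeval_ne hf hb0
  have hd := aeval_ne hf hd0
  have ed : aeval f (a ^ 2 - 4 * b) = aeval f a ^ 2 - 4 * aeval f b := by
    rw [map_sub, map_pow, map_mul, map_ofNat]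
  have h4r : v.Reg (4 : K) := by exact_mod_cast reg_nat' 4
  have n4 : v.red (4 : K) = 4 := by exact_mod_cast red_nat' (v := v) 4
  have hf0 : f ≠ 0 := by
    rintro rfl
    exact hf isAlgebraic_zero
  rw [ed] at hd ⊢
  by_cases hr : v.Reg f
  · -- regular
    have ra := reg_aeval hr a
    have rb := reg_aeval hr b
    have rd : v.Reg (aeval f a ^ 2 - 4 * aeval f b) := by rw [← ed]; exact reg_aeval hr _
    obtain ⟨u, w, huw⟩ := cop
    have h1 : v.red (aeval f u) * v.red (aeval f a) + v.red (aeval f w) * v.red (aeval f b) = 1 := by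
      rw [← v.red_mul (reg_aeval hr _) ra, ← v.red_mul (reg_aeval hr _) rb,
        ← v.red_add (v.reg_mul (reg_aeval hr _) ra) (v.reg_mul (reg_aeval hr _) rb),
        ← map_mul, ← map_mul, ← map_add, huw, map_one, v.red_one]
    by_cases hb0 : v.red (aeval f b) = 0
    · have ha : v.red (aeval f a) ≠ 0 := by
        intro h2
        rw [h2, hb0, mul_zero, mul_zero, add_zero] at h1
        exact zero_ne_one h1
      have h2 := exp_mult R2 R3 F3 r3 hb hd ra rb ha (Or.inl hb0)
      have h3 : 0 < v.ord (aeval f b) := by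
        rcases (v.red_eq_zero_iff rb).1 hb0 with h4 | h4
        · exact absurd h4 hb
        · exact h4
      rw [if_pos h3]
      omega
    · by_cases hd0 : v.red (aeval f a ^ 2 - 4 * aeval f b) = 0
      · have ha : v.red (aeval f a) ≠ 0 := by
          intro h2
          apply hb0
          rw [v.red_sub (reg_pow' ra 2) (v.reg_mul h4r rb), v.red_pow ra, v.red_mul h4r rb, n4,
            h2] at hd0
          have h5 : 4 * v.red (aeval f b) = 0 := by linear_combination -hd0
          exact (mul_eq_zero.1 h5).resolve_left R4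
        have h2 := exp_mult R2 R3 F3 r3 hb hd ra rb ha (Or.inr hd0)
        have h3 : 0 < v.ord (aeval f a ^ 2 - 4 * aeval f b) := by
          rcases (v.red_eq_zero_iff rd).1 hd0 with h4 | h4
          · exact absurd h4 hd
          · exact h4
        rw [if_pos h3]
        omega
      · have h2 := exp_good F3 r3 (c := 1) hb hd one_ne_zero
          (by rw [one_pow, one_mul]; exact ra) (by rw [one_pow, one_mul]; exact rb)
          (by rw [one_pow, one_mul]; exact hb0)
          (by rw [one_pow, one_mul, one_pow, one_mul]; exact hd0)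
        rw [h2]
        exact Nat.zero_le _
  · -- a pole
    have hn : v.ord f < 0 := by
      by_contra h1
      exact hr (Or.inr (by omega))
    have h1 : 0 < v.ord f⁻¹ := by rw [v.ord_inv]; omega
    rw [if_pos h1]
    have h2 := condExp_le v (tA 1 (aeval f a) (aeval f b)) (tB 1 (aeval f a) (aeval f b))
    omega

theorem condSum_le_cop (h6 : (6 : k) ≠ 0) {a b : k[X]} (cop : IsCoprime a b) (hb0 : b ≠ 0)
    (hd0 : a ^ 2 - 4 * b ≠ 0) {f : K} (hf : Transcendental k f) :
    condSum k (tA 1 (aeval f a) (aeval f b)) (tB 1 (aeval f a) (aeval f b)) ≤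
      zSum k (aeval f b) + zSum k (aeval f (a ^ 2 - 4 * b)) + 2 * zSum k f⁻¹ := by
  classical
  have s1 := supp_finite (k := k) (aeval f b) fun v => 2 ^ padicValNat 2 (S.deg v)
  have s2 := supp_finite (k := k) (aeval f (a ^ 2 - 4 * b)) fun v => 2 ^ padicValNat 2 (S.deg v)
  have s3 := supp_finite (k := k) f⁻¹ fun v => 2 ^ padicValNat 2 (S.deg v)
  have s12 := (s1.union s2).subset (Function.support_add _ _)
  have s33 := (s3.union s3).subset (Function.support_add _ _)
  have s4 := (s12.union s33).subset (Function.support_add _ _)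
  have e : zSum k (aeval f b) + zSum k (aeval f (a ^ 2 - 4 * b)) + 2 * zSum k f⁻¹ =
      ∑ᶠ v : Place k K, (((if 0 < v.ord (aeval f b) then 2 ^ padicValNat 2 (S.deg v) else 0) +
        (if 0 < v.ord (aeval f (a ^ 2 - 4 * b)) then 2 ^ padicValNat 2 (S.deg v) else 0)) +
        ((if 0 < v.ord f⁻¹ then 2 ^ padicValNat 2 (S.deg v) else 0) +
          (if 0 < v.ord f⁻¹ then 2 ^ padicValNat 2 (S.deg v) else 0))) := by
    rw [finsum_add_distrib s12 s33, finsum_add_distrib s1 s2, finsum_add_distrib s3 s3, two_mul]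
    rfl
  rw [e]
  have hle : ∀ v : Place k K, condExp v (tA 1 (aeval f a) (aeval f b))
      (tB 1 (aeval f a) (aeval f b)) * twoPart (S.deg v) ≤
      (((if 0 < v.ord (aeval f b) then 2 ^ padicValNat 2 (S.deg v) else 0) +
        (if 0 < v.ord (aeval f (a ^ 2 - 4 * b)) then 2 ^ padicValNat 2 (S.deg v) else 0)) +
        ((if 0 < v.ord f⁻¹ then 2 ^ padicValNat 2 (S.deg v) else 0) +
          (if 0 < v.ord f⁻¹ then 2 ^ padicValNat 2 (S.deg v) else 0))) := by
    intro v
    have h1 := Nat.mul_le_mul_right (2 ^ padicValNat 2 (S.deg v))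
      (exp_le_cop h6 cop hb0 hd0 hf v)
    refine h1.trans (le_of_eq ?_)
    rw [add_mul, add_mul, ite_mul, ite_mul, two_mul, add_mul, ite_mul, one_mul, zero_mul]
  unfold condSum
  refine finsum_le_finsum' ?_ s4 hle
  apply s4.subset
  intro v hv
  rw [Function.mem_support] at hv ⊢
  have := hle v
  omega

/-- **The bound for the order of vanishing.** -/
theorem bound_cop (h6 : (6 : k) ≠ 0) (hr : constDeg k K = 1) (hodd : Odd (S.classNumber k K))
    {a b : k[X]} (cop : IsCoprime a b) (hb0 : b ≠ 0) (hd0 : a ^ 2 - 4 * b ≠ 0) {f : K}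
    (hf : Transcendental k f) {m : ℕ}
    (hm : S.VanishesTo k (tA 1 (aeval f a) (aeval f b)) (tB 1 (aeval f a) (aeval f b)) m) :
    m + 4 ≤ zSum k (aeval f b) + zSum k (aeval f (a ^ 2 - 4 * b)) + 2 * zSum k f⁻¹ := by
  obtain ⟨k2, k3⟩ := k23 h6
  have F3 : (3 : K) ≠ 0 := nz k3
  have hb := aeval_ne hf hb0
  have hd := aeval_ne hf hd0
  rw [map_sub, map_pow, map_mul, map_ofNat] at hd
  exact (TH943.TT.bound_two h6 (disc_ne F3 hb hd) (root_t F3 1 _ _) hr hodd hm).trans
    (condSum_le_cop h6 cop hb0 hd0 hf)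

/-- the values at a function with one zero -/
theorem zSum_one {g : K} (h : ∃ v : Place k K, 0 < v.ord g ∧ Odd (S.deg v) ∧
    ∀ w : Place k K, 0 < w.ord g → w = v) : zSum k g = 1 := by
  classical
  obtain ⟨v, h1, h2, h3⟩ := h
  unfold zSum
  rw [finsum_eq_single _ v]
  · rw [if_pos h1, padicValNat.eq_zero_of_not_dvd (by
      rw [← even_iff_two_dvd]; exact Nat.not_even_iff_odd.2 h2), pow_zero]
  · intro w hw
    rw [if_neg]
    intro h4
    exact hw (h3 w h4)

end glob

section rat

variable {k : Type} [Field k] [Finite k]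

theorem zSum_odd {P : k[X]} (hP : Irreducible P) (ho : Odd P.natDegree) : zSum k (A P) = 1 := by
  rw [zSum_irr hP, padicValNat.eq_zero_of_not_dvd (by
    rw [← even_iff_two_dvd]; exact Nat.not_even_iff_odd.2 ho), pow_zero]

/-- the poles of a polynomial -/
theorem zSum_inv {P : k[X]} (hP : P.natDegree ≠ 0) : zSum k (A P)⁻¹ = 1 := by
  have h0 : P ≠ 0 := by
    rintro rfl
    exact hP natDegree_zero
  apply zSum_one
  refine ⟨infty k, ?_, ?_, fun w hw => ?_⟩
  · rw [(infty k).ord_inv, inf_ord' infty_X h0]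
    omega
  · rw [S.deg_eq, inf_deg infty_X]
    exact odd_one
  · by_contra hne
    have h1 := (w.reg_iff (A_ne h0)).1 (fin_reg (fin_of_ne hne) P)
    rw [w.ord_inv] at hw
    omega

/-- **The order of vanishing over the rational function field.** -/
theorem bound_poly (h6 : (6 : k) ≠ 0) {a b g : k[X]} (cop : IsCoprime a b) (hb0 : b ≠ 0)
    (hd0 : a ^ 2 - 4 * b ≠ 0) (hg : g.natDegree ≠ 0) {m : ℕ}
    (hm : S.VanishesTo k (tA 1 (A (a.comp g)) (A (b.comp g)))
      (tB 1 (A (a.comp g)) (A (b.comp g))) m) :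
    m + 2 ≤ zSum k (A (b.comp g)) + zSum k (A ((a ^ 2 - 4 * b).comp g)) := by
  have hf : Transcendental k (A g) := by
    intro h
    obtain ⟨p, hp0, hp⟩ := h
    have h1 : A (p.comp g) = 0 := by
      rw [← hp]
      change algebraMap k[X] (RatFunc k) _ = aeval (algebraMap k[X] (RatFunc k) g) p
      rw [aeval_algebraMap_apply, comp_eq_aeval]
    have h2 : p.comp g = 0 := by
      by_contra h3
      exact A_ne h3 h1
    rcases comp_eq_zero_iff.1 h2 with h3 | ⟨-, h3⟩
    · exact hp0 h3
    · rw [h3] at hg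
      exact hg (natDegree_C _)
  have e : ∀ p : k[X], aeval (A g) p = A (p.comp g) := by
    intro p
    change aeval (algebraMap k[X] (RatFunc k) g) p = algebraMap k[X] (RatFunc k) _
    rw [aeval_algebraMap_apply, comp_eq_aeval]
  have h1 := bound_cop (K := RatFunc k) h6 constDeg_rat (by rw [classNumber_rat]; exact odd_one)
    cop hb0 hd0 hf (m := m) (by rw [e, e]; exact hm)
  rw [e, e, zSum_inv hg] at h1
  omega

/-- **Nonvanishing.** -/
theorem nonvanishing (h6 : (6 : k) ≠ 0) {a b g : k[X]} (hb : Irreducible (b.comp g))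
    (hd : Irreducible ((a ^ 2 - 4 * b).comp g)) (ob : Odd (b.comp g).natDegree)
    (od : Odd ((a ^ 2 - 4 * b).comp g).natDegree) (cop : IsCoprime a b) {m : ℕ}
    (hm : S.VanishesTo k (tA 1 (A (a.comp g)) (A (b.comp g)))
      (tB 1 (A (a.comp g)) (A (b.comp g))) m) : m = 0 := by
  have hg : g.natDegree ≠ 0 := by
    intro h0
    rw [natDegree_comp, h0, mul_zero] at ob
    exact absurd ob (by decide)
  have hb0 : b ≠ 0 := by
    rintro rfl
    rw [zero_comp] at hb
    exact not_irreducible_zero hb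
  have hd0 : a ^ 2 - 4 * b ≠ 0 := by
    intro h0
    rw [h0, zero_comp] at hd
    exact not_irreducible_zero hd
  have h1 := bound_poly h6 cop hb0 hd0 hg hm
  rw [zSum_odd hb ob, zSum_odd hd od] at h1
  omega

end rat

end Pool.Agent.Q126.NV
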